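import Pool.Agent.helper94.CG.Analysis

/-!
# MP_ba8873_co : the formula of Q1 for the biased clique achievement number is false

`CG.MakerForces m b N q M B` : backward induction definition of `Maker, to move in the position
(M, B) of the (m:b) clique game on K_N, can build a K_q`.
`CG.achievement m b N` : the clique achievement number.
`CG.Q m b N` : the quantity `Q(N)` of the problem.
-/

namespace Pool.Agent.Results.MP_ba8873_co.FormulaFails

open Filter Topology

/-- The assertion of Q1 is false. Moreover the achievement number exceeds `(3/2) Q(N)` for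
`(m, b) = (4096, 4095)` and all large `N`, and `C Q(N)`, for any given `C`, for suitable `m > b`. -/
theorem result :
    (¬ ∀ m b : ℕ, 1 ≤ b → b < m → ∃ ε : ℕ → ℝ, Tendsto ε atTop (𝓝 0) ∧
      ∀ᶠ N : ℕ in atTop, (CG.achievement m b N : ℤ) = ⌊CG.Q m b N + ε N⌋) ∧
    (∀ᶠ N : ℕ in atTop, 3 / 2 * CG.Q 4096 4095 N ≤ CG.achievement 4096 4095 N) ∧
    (∀ C : ℝ, 0 < C → ∃ m b : ℕ, 1 ≤ b ∧ b < m ∧
      ∀ᶠ N : ℕ in atTop, C * CG.Q m b N ≤ CG.achievement m b N) :=
  ⟨CG.not_formula,
    CG.eventually_ratio (j := 91) (by norm_num) (by norm_num) (by norm_num) (by norm_num)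
      (by norm_num) CG.numeric,
    fun _ hC => CG.exists_ratio hC⟩

end Pool.Agent.Results.MP_ba8873_co.FormulaFails
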